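import Pool.Agent.H68.RT.LowP
import Pool.Graph.R_pool_sql_team_seeded_1acbe0a2.Y691.TU.WmF
import Pool.Graph.R_seed8.Q193.LT.Prime

/-!
# The `ℓ`-adic monodromy-weight conjecture in one degree and one dimension, and sections of the cones
over `Gr(2, n)`

Let `ℓ ≠ p` be prime numbers, `W` the Weil group of `ℚ_p`, a subgroup of the Galois group of `ℚ`, with
`deg = v : W → ℤ`, and `q = p`. Let `C` be the category of motives over `ℚ` for absolute Hodge cycles (or
for motivated cycles), which is abelian and semisimple. For a separated scheme `X` of finite type over `ℚ`
let `D.H X w j = gr^W_w H^j_c(X)`, an object of `C`; for smooth projective `X` this is `H^j(X)` for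
`w = j` and zero for `w ≠ j`. Let `R` be the `ℓ`-adic realization of `C`, with coefficients extended to an
algebraic closure `Ω` of `ℚ_ℓ`, with the monodromy operator `N` and the linear operators `ρ g`, `g ∈ W`.

`MWAt R deg q w A` says: all eigenvalues of `ρ g` on the graded pieces `gr^N_s` of the realization of `A`
are algebraic numbers, all of whose complex conjugates have the absolute value `q ^ ((w + s) v(g) / 2)`,
for all `s` and `g`. For `A = H^w(X)` this is the statement of question Q1 for `m = w`. `MW w X` below
stands for `PieceOf D (MWAt R deg q w) w X`: the statement `MWAt R deg q w` is true for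
`gr^W_w H^j_c(X)` for all `j`.

Let `F` be one of the following two families of affine schemes over `ℚ`:

* `IsRankTwo`: the schemes of the `m × n` matrices of rank at most two, whose entries at the places of a
  set `Z` are zero, and whose entries at the places of a set `N` are one;
* `IsLines`: the sections of the affine cone over the Grassmannian `Gr(2, n)` in its Plücker embedding by
  equations `p_ij = 0`, `(i, j) ∈ Z`, and `p_ij = 1`, `(i, j) ∈ N`.

Let `Coord` be the following family of affine schemes over `ℚ`: the sections of the affine cone over
`Gr(2, n)` by equations `p_ij = 0`, `(i, j) ∈ Z`; their open parts, where `p_ij` is invertible for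
`(i, j) ∈ U`; the schemes of the `m × n` matrices of rank at most two with zeros at `Z`. No entry is
prescribed to be one. `Built True Coord X` says that `X` is obtained from these schemes by gluing a closed
and an open part, finitely often.

**Theorem.** Let `w` and `d` be integers. (0) *With zeros only the conjecture is true.* Assume `MW w` for
the affine spaces over `ℚ`, that is for the motives `ℚ(-n)`. Then `MW w X` is true for all `X` with
`Built True Coord X`, for all `m`, `n`, `Z`, `U`. In particular Q1 has a positive answer for `H^w(X)` for
the smooth projective `X` of this kind.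

*With zeros and ones they decide everything:* (1) Every separated scheme `X` of finite type over `ℚ`, for
instance a smooth projective one, has a finite partition into smooth locally closed subschemes `Y_l`,
members of the family `F`, integral or empty, such that `MW w X` is true if `MW w (Y_l)` is true for
all `l`.

(2) `MW w` is true for all separated schemes of finite type over `ℚ` of dimension at most `d` if and only
if it is true for the smooth integral members of the family `F` of dimension at most `d`.

(3) By resolution of singularities, question Q1 has a positive answer at `p` for the cohomology `H^w(X)` of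
the one degree `w` of all smooth projective schemes `X` over `ℚ` of dimension at most `d` if and only if
`MW w` is true for the smooth integral members of the family `F` of dimension at most `d`.

Only the localization sequences are used; degree and dimension are the same on both sides.
-/

set_option autoImplicit false

open CategoryTheory CategoryTheory.Limits AlgebraicGeometry Pool.Agent.Y116.UV
  Pool.Agent.Y101.Th Pool.Agent.Y691.TU Pool.Agent.H68.RT

namespace Pool.Agent.Results.MP_cd312e_ag.GrassmannianOfLines

universe v u

/-- **The monodromy-weight conjecture in the degree `w` and the dimensions at most `d`, and sections of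
the cones over the Grassmannians of lines.** See the explanations above. -/
theorem result {C : Type u} [Category.{v} C] [Abelian C] {D : Graded ℚ C} {Ω W : Type} [Field Ω]
    [Algebra ℚ Ω] {R : LocalRealisation C Ω W} [R.F.Additive] {deg : W → ℤ} {q : ℕ} (hq : 0 < q)
    (hC : Semisimple C) (hD : HasPieces D) (w : ℤ) {F : Sch ℚ → Prop} (hF : IsFamily F) :
    ((∀ n : ℕ, PieceOf D (MWAt R deg q w) w (aff ℚ (MvPolynomial (Fin n) ℚ))) →
      ∀ X, Built True Coord X → PieceOf D (MWAt R deg q w) w X) ∧
    (∀ X, FT True X → ∃ (k : ℕ) (Y : Fin k → Sch ℚ) (f : ∀ l, Y l ⟶ X),
      (∀ l, F (Y l) ∧ SmInt (Y l)) ∧ (∀ l, IsImmersion (f l).left) ∧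
      (∀ x : X.left, ∃! l, x ∈ Set.range (f l).left) ∧
      ((∀ l, PieceOf D (MWAt R deg q w) w (Y l)) → PieceOf D (MWAt R deg q w) w X)) ∧
    ∀ d : ℕ,
      ((∀ X, FT True X → topologicalKrullDim X.left ≤ d → PieceOf D (MWAt R deg q w) w X) ↔
        ∀ Y, F Y → SmInt Y → topologicalKrullDim Y.left ≤ d →
          PieceOf D (MWAt R deg q w) w Y) ∧
      ((∀ Y, F Y → SmInt Y → topologicalKrullDim Y.left ≤ d →
          PieceOf D (MWAt R deg q w) w Y) →
        ∀ X, SmProj X → topologicalKrullDim X.left ≤ d → MWAt R deg q w (D.H X w w)) ∧
      (Resolution ℚ →
        ((∀ X, SmProj X → topologicalKrullDim X.left ≤ d → MWAt R deg q w (D.H X w w)) ↔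
          ∀ Y, F Y → SmInt Y → topologicalKrullDim Y.left ≤ d →
            PieceOf D (MWAt R deg q w) w Y)) := by
  have hQ : SumClosed (MWAt R deg q w) := {
    zero := fun _ hA => mw_zero hA
    sum := fun _ _ hA hB => mw_sum hq hA hB
    summand := fun _ _ s r h hB => mw_summand s r h hB }
  exact ⟨fun h X hX => cel_built (cel_piece hC hD hQ w h) hX,
    piece_of_iff Pool.Agent.Q193.LT.frac_rat hC hD hQ w hF⟩

end Pool.Agent.Results.MP_cd312e_ag.GrassmannianOfLines
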