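import Pool.Agent.H81.RZ.Kr
import Pool.Agent.H51.KG.Low
import Pool.Agent.H55.TH.Ksm
import Pool.Graph.R_pool_sql_team_seeded_2aa45f1a.Q148.LI.WM
import Pool.Graph.R_pool_sql_team_seeded_2aa45f1a.Q148.LI.Proper

/-!
# The `ℓ`-adic monodromy-weight conjecture and the Kirchhoff polynomials of graphs of maximal degree three

Let `ℓ ≠ p` be prime numbers, `G` the Weil group of `ℚ_p`, a subgroup of the Galois group of `ℚ`, and
`d = v : G → ℤ`. Let `M` be the category of motives over `ℚ` for motivated cycles (André), a semisimple
abelian category, `N ↦ N(a)` the Tate twists and `E` an algebraic closure of `ℚ_ℓ`. For a motive `N`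
let `ω m N` be the part of weight `m` of its `ℓ`-adic realization, with coefficients extended to `E`, with
the monodromy operator `N` and the linear action of `G`. For a separated scheme `X` of finite type over
`ℚ` let `D.H i X` be the object of `M` given by the graded object of the weight filtration of the
cohomology with compact supports `H^i_c(X)`; for smooth proper `X` it is the motive `h^i(X)`, with
`ω i (h^i(X)) = H^i(X, ℚ_ℓ) ⊗ E`, and it is of weight `i` (`PureWeights`).

`Claim X` is the statement of question Q1 for the smooth proper scheme `X` at `p` (all `m`, `s`, `g`).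
`PureSch X` says that for all `i`, `m` and `g` the eigenvalues of `g` on the graded pieces `gr^N_s` of the
part of weight `m` of `H^i_c(X)` are algebraic numbers all of whose complex conjugates have the absolute
value `p ^ ((m + s) v(g) / 2)`.

The Kirchhoff polynomial of a finite graph `G` is `Ψ_G = ∑_T ∏_{e ∈ T} x_e`, the sum over the spanning
trees of `G`. All graphs are simple. A graph is split, if its vertices are the disjoint union of an
independent set and a clique.

**Theorem.** The following are equivalent: question Q1 has a positive answer at `p` for all smooth proper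
schemes over `ℚ`; for all smooth projective schemes over `ℚ`; `PureSch X` is true for all separated
schemes `X` of finite type over `ℚ`; it is true for the hypersurfaces `Ψ_G = 0` of all graphs `G` whose
vertices have at most three neighbours; it is true for the smooth affine varieties `Ψ_G ≠ 0` of all these
graphs; the same for all split graphs `G`.

The bound three is optimal: `PureSch X` is true for `X : Ψ_G = 0` and for `X : Ψ_G ≠ 0`, if the vertices of
`G` have at most two neighbours (unconditionally). The same is
true for the split graphs whose independent set has at most two vertices or whose clique has at most three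
vertices, for instance for all complete graphs.

The universality for all graphs (for classes in a localised Grothendieck ring) is a theorem of Belkale and
Brosnan, whose graphs have vertices of arbitrarily large degree. The degrees are made small as follows. Let
`v` be a vertex of `G` with at least four neighbours, and let `G'` be the graph in which `v` is
split into a vertex with two of the neighbours and a vertex with the others, joined by a new edge `e`, and
`G''` the graph in which `e` is subdivided. With `A = Ψ_G` and `B = Ψ_{G' - e}` we have `Ψ_{G'} = A x + B` and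
`Ψ_{G''} = A x y + B (x + y)`. So `{Ψ_{G'} ≠ 0}` consists of `{B ≠ 0}` and of `{A + B s ≠ 0, s ≠ 0}`, and
`{Ψ_{G''} ≠ 0}` of two copies of `{B ≠ 0} × 𝔾_m` and of `{A + B (s + t) ≠ 0, s ≠ 0, t ≠ 0}`. The last
one together with `{A + B s ≠ 0, s ≠ 0}` (for `t = 0`) is `{A + B s ≠ 0} × 𝔾_m`, and `{A + B s ≠ 0}`
consists of `{A + B s ≠ 0, s ≠ 0}` and of `{A ≠ 0}`, the complement of `Ψ_G = 0`. The graphs `G'`, `G''` and
`G' - e` have a smaller sum of the numbers `deg - 3`, `deg > 3`.

*Remark.* The `ℓ`-adic cohomology of the fibres of a smooth proper family is locally constant on the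
`K`-points of the base as a representation of the Galois group of `K` (Kisin). So every smooth proper
scheme over a local field `K` of residue characteristic `p` has the same cohomology as one that is defined
over a number field in `K`, and this is a factor of the cohomology of a smooth proper scheme over `ℚ`,
restricted to `K`: the conjecture for `ℚ` and `p` implies the conjecture for all these local fields.
-/

set_option autoImplicit false

open CategoryTheory CategoryTheory.Limits AlgebraicGeometry Pool.Agent.Y116.UV Pool.Agent.Z125.UN
  Pool.Agent.Q193.LT Pool.Agent.Q148.LI Pool.Agent.H81.RZ Pool.Agent.H51.KG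
  Pool.Agent.H55.TH

universe w v u

namespace Pool.Agent.Results.MP_cd312e_ag.KirchhoffHypersurfaces

variable {M : Type u} [Category.{v} M] [Abelian M] {E G : Type} [Field E] [CharZero E]

/-- The motive `h^i(X)` of a smooth proper scheme `X` has the weight `i`. -/
def PureWeights (D : CompactData ℚ M) (ω : ℤ → (M ⥤ ModuleCat.{w} (OpAlg E G))) : Prop :=
  ∀ X : Sch ℚ, SmoothProper X → ∀ i m : ℤ, m ≠ i → Subsingleton ((ω m).obj (D.H i X))

/-- The statement of Q1 for `X`. -/
def Claim (D : CompactData ℚ M) (p : ℕ) (d : G → ℤ) (ω : ℤ → (M ⥤ ModuleCat.{w} (OpAlg E G)))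
    (X : Sch ℚ) : Prop :=
  ∀ i : ℤ, Pure E p d i ((ω i).obj (D.H i X))

/-- Purity for `X`, which may be not proper. -/
def PureSch (D : CompactData ℚ M) (p : ℕ) (d : G → ℤ) (ω : ℤ → (M ⥤ ModuleCat.{w} (OpAlg E G)))
    (X : Sch ℚ) : Prop :=
  ∀ i : ℤ, PureAt p d ω (D.H i X)

variable {D : CompactData ℚ M} {p : ℕ} {d : G → ℤ} {ω : ℤ → (M ⥤ ModuleCat.{w} (OpAlg E G))}

lemma claim_iff (hw : PureWeights D ω) {X : Sch ℚ} (hX : SmoothProper X) :
    Claim D p d ω X ↔ PureSch D p d ω X := by
  constructor
  · intro h i m
    by_cases hm : m = i
    · rw [hm]
      exact h i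
    · have h1 := hw X hX i m hm
      intro j g x c _ h2 _
      exact absurd (by rw [Subsingleton.elim x 0]; exact zero_mem _) h2
  · intro h i
    exact h i i

/-- **Purity and the Kirchhoff polynomials of graphs.** See the explanations above. -/
theorem result [Fact p.Prime] (h : IsRealized D p d ω) (hw : PureWeights D ω)
    (point : PureSch D p d ω (aff ℚ ℚ)) :
    List.TFAE [
      ∀ X : Sch ℚ, SmoothProper X → Claim D p d ω X,
      ∀ Y : Sch ℚ, SmoothProj Y → Claim D p d ω Y,
      OnAll True (PureSch D p d ω),
      -- graphs whose vertices have at most three neighbours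
      OnDegree 3 (PureSch D p d ω),
      OffDegree 3 (PureSch D p d ω),
      -- split graphs
      OnKirchhoff (PureSch D p d ω),
      OffKirchhoff (PureSch D p d ω)] ∧
    -- unconditionally: at most two neighbours, and split graphs with a small part
    OnDegree 2 (PureSch D p d ω) ∧ OffDegree 2 (PureSch D p d ω) ∧ OnSmallKirchhoff (PureSch D p d ω) := by
  have hS := h.pure
  have hP : Bnd True (PureSch D p d ω) := bnd_compact h.compact hS point
  refine ⟨?_, on_two hP.toUni, off_two hP.toUni, small_of_bnd hP point⟩
  tfae_have 1 → 2 := fun h1 Y hY => h1 Y (SmoothProj.proper' hY)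
  tfae_have 2 → 3 := fun h1 => (all_iff hP).mpr ((proj_all_iff h.compact h.generated hS point).mp
    fun Y hY => (claim_iff hw (SmoothProj.proper' hY)).mp (h1 Y hY))
  tfae_have 3 → 1 := fun h1 X hX => (claim_iff hw hX).mpr (h1 X (SmoothProper.ft hX))
  tfae_have 3 ↔ 4 := all_onDegree_iff frac_rat hP
  tfae_have 3 ↔ 5 := all_offDegree_iff frac_rat hP
  tfae_have 3 ↔ 6 := all_kirchhoff_iff frac_rat hP
  tfae_have 3 ↔ 7 := all_offKirchhoff_iff frac_rat hP
  tfae_finish

end Pool.Agent.Results.MP_cd312e_ag.KirchhoffHypersurfaces
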