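import Pool.Agent.H55.TH.Rank
import Pool.Agent.H51.TH.Spaces
import Pool.Graph.R_pool_sql_team_seeded_1acbe0a2.Y691.TU.WmF

/-!
# The `ℓ`-adic monodromy-weight conjecture and matrices with prescribed zeros: rank two and three

Let `ℓ ≠ p` be prime numbers, `W` the Weil group of `ℚ_p`, a subgroup of the Galois group of `ℚ`, with
`deg = v : W → ℤ`, and `q = p`. Let `C` be the category of motives over `ℚ` for absolute Hodge cycles (or
for motivated cycles), which is abelian and semisimple. For a separated scheme `X` of finite type over `ℚ`
let `D.H X w j = gr^W_w H^j_c(X)`, an object of `C`; for smooth projective `X` this is `H^j(X)` for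
`w = j` and zero for `w ≠ j`. Let `R` be the `ℓ`-adic realization of `C`, with coefficients extended to an
algebraic closure `Ω` of `ℚ_ℓ`, with the monodromy operator `N` and the linear operators `ρ g`, `g ∈ W`.

`MWAt R deg q w A` says: all eigenvalues of `ρ g` on the graded pieces `gr^N_s` of the realization of `A`
are algebraic numbers, all of whose complex conjugates have the absolute value `q ^ ((w + s) v(g) / 2)`,
for all `s` and `g`. For `A = H^w(X)` this is the statement of question Q1 for `m = w`.

For `r ∈ ℕ` consider the affine schemes over `ℚ` of the `m × n` matrices of rank at most `r` whose entries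
at the places of a set `Z` are zero, for all `m`, `n` and `Z`.

**Theorem.** (1) If `r ≤ 2`, then `MWAt R deg q w` is true for the graded pieces `gr^W_w H^j_c(X)` of all
weights `w`, for all `j` and all these schemes `X`. (2) Let `w` be an integer and `r ≥ 3`, for instance
`r = 3`. The following are equivalent: `MWAt R deg q w` is true for the graded pieces `gr^W_w H^j_c(X)` of
the one weight `w`, for all `j` and all separated schemes `X` of finite type over `ℚ`; it is true for
those of the schemes of matrices of rank at most `r` with prescribed zeros. Then question Q1 has a positive answer at `p` for the cohomology `H^w(X)` of the one degree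
`w` of all smooth projective schemes over `ℚ`; the converse is true by resolution of singularities, used in
the form `Devissage`.

In (2) neither the Tate twist nor the cohomology of affine bundles is used, and so the degree `w` is fixed
in all the statements. (1) is proved by cutting along the entries and the `2 × 2` minors: the parts are
configurations of vectors in the plane with prescribed parallel pairs, and these are built one coordinate
at a time (`Pool.Agent.H55.TH.elim_add`); it uses the realisation of the Tate twist
(`IsLocalRealisation`) and of the unit motive (`N = 0` and `ρ g = 1`).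
-/

set_option autoImplicit false

open CategoryTheory CategoryTheory.Limits AlgebraicGeometry Pool.Agent.Y116.UV
  Pool.Agent.Y101.Th Pool.Agent.Y691.TU Pool.Agent.Z125.UN Pool.Agent.H81.RZ

namespace Pool.Agent.Results.MP_cd312e_ag.RankThreeMatrices

universe v u

/-- The statement of Q1 for the cohomology of degree `w` of all smooth projective schemes over `ℚ`. -/
def QuestionIn {C : Type u} [Category.{v} C] (D : Graded ℚ C) {Ω W : Type} [Field Ω] [Algebra ℚ Ω]
    (R : LocalRealisation C Ω W) (deg : W → ℤ) (q : ℕ) (w : ℤ) : Prop :=
  ∀ X : Sch ℚ, SmProj X → MWAt R deg q w (D.H X w w)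

/-- **The monodromy-weight conjecture and matrices with prescribed zeros: rank at most two and rank at
most `r ≥ 3`.** See the explanations above; `hN` and `hρ` describe the realisation of the unit motive. -/
theorem result {C : Type u} [Category.{v} C] [Abelian C] {D : Graded ℚ C} {Ω W : Type} [Field Ω]
    [Algebra ℚ Ω] {R : LocalRealisation C Ω W} [R.F.Additive] {deg : W → ℤ} {q : ℕ} (hq : 0 < q)
    (hC : Semisimple C) (hD : IsGraded D) :
    (IsLocalRealisation R D.L deg q → R.N.app D.one = 0 → (∀ g, (R.ρ g).app D.one = 𝟙 _) →
      ∀ r : ℕ, r ≤ 2 → ∀ w : ℤ, OnRank r (PieceAt D (MWAt R deg q w) w)) ∧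
    ∀ (w : ℤ) (r : ℕ), 3 ≤ r →
      (OnRank r (PieceAt D (MWAt R deg q w) w) ↔ OnAll True (PieceAt D (MWAt R deg q w) w)) ∧
      (OnRank r (PieceAt D (MWAt R deg q w) w) → QuestionIn D R deg q w) ∧
      (Devissage ℚ → QuestionIn D R deg q w → OnRank r (PieceAt D (MWAt R deg q w) w)) := by
  have hQ : ∀ w, Fac (MWAt R deg q w) := fun w => {
    zero := fun _ hA => mw_zero hA
    sum := fun _ _ hA hB => mw_sum hq hA hB
    summand := fun _ _ s r h hB => mw_summand s r h hB }
  refine ⟨fun hR hN hρ r hr w => ?_, fun w r hr =>
    piece_iff Pool.Agent.Q193.LT.frac_rat hC hD (hQ w) w hr⟩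
  exact Pool.Agent.H55.TH.on_rank (clo_piece hC hD (hQ w) w)
    (Pool.Agent.H51.TH.spaces_cd hC hD hR hq (Pool.Agent.H51.TH.unit_cd hN hρ) w) hr

end Pool.Agent.Results.MP_cd312e_ag.RankThreeMatrices
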