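import Pool.Agent.H81.RZ.Cell2
import Pool.Agent.H55.TH.Thin
import Pool.Agent.H51.TH.Spaces
import Pool.Graph.R_pool_sql_team_seeded_1acbe0a2.Y691.TU.WmF

/-!
# The `ℓ`-adic monodromy-weight conjecture and thin Schubert cells of lines and planes

Let `ℓ ≠ p` be prime numbers, `W` the Weil group of `ℚ_p`, a subgroup of the Galois group of `ℚ`, with
`deg = v : W → ℤ`, and `q = p`. Let `C` be the category of motives over `ℚ` for absolute Hodge cycles (or
for motivated cycles), which is abelian and semisimple. For a separated scheme `X` of finite type over `ℚ`
let `D.H X w j = gr^W_w H^j_c(X)`, an object of `C`; for smooth projective `X` this is `H^j(X)` for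
`w = j` and zero for `w ≠ j`. Let `R` be the `ℓ`-adic realization of `C`, with coefficients extended to an
algebraic closure `Ω` of `ℚ_ℓ`, with the monodromy operator `N` and the linear operators `ρ g`, `g ∈ W`.

`MWAt R deg q w A` says: all eigenvalues of `ρ g` on the graded pieces `gr^N_s` of the realization of `A`
are algebraic numbers, all of whose complex conjugates have the absolute value `q ^ ((w + s) v(g) / 2)`,
for all `s` and `g`. For `A = H^w(X)` this is the statement of question Q1 for `m = w`.

The thin Schubert cell of a set `B` of three-element subsets of the set of columns consists of the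
matrices `(1 | A)` with three rows over `ℚ`, whose maximal minors with the columns in `B` are different
from zero, while all the other maximal minors are zero. It is a stratum of the Grassmannian `Gr(3, 3 + n)`
in its stratification by the matroids of the subspaces (Gelfand, Goresky, MacPherson, Serganova), and it
is empty if `B` is not the set of bases of a matroid.

`Thinr ℚ 2 B` is the same for the matrices `(1 | A)` with two rows, and the Grassmannians `Gr(2, 2 + n)`.

**Theorem.** (1) `MWAt R deg q w` is true for the graded pieces `gr^W_w H^j_c(X)` of all weights `w`, for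
all `j` and all thin Schubert cells `X` of the Grassmannians `Gr(2, 2 + n)`. (2) Let `w` be an integer.
The following are equivalent: `MWAt R deg q w` is true for the graded pieces `gr^W_w H^j_c(X)` of the one
weight `w`, for all `j` and all separated schemes `X` of finite type over `ℚ`; it is true for those of all
thin Schubert cells of the Grassmannians `Gr(3, 3 + n)`. Then question Q1
has a positive answer at `p` for the cohomology `H^w(X)` of the one degree `w` of all smooth projective
schemes over `ℚ`; the converse is true by resolution of singularities, used in the form `Devissage`.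

In (2) neither the Tate twist nor the cohomology of affine bundles is used, and so the degree `w` is fixed
in all the statements. (1) is proved by building the cells one coordinate at a time
(`Pool.Agent.H55.TH.elim_add`); it uses the realisation of the Tate twist (`IsLocalRealisation`) and of
the unit motive (`N = 0` and `ρ g = 1`).
-/

set_option autoImplicit false

open CategoryTheory CategoryTheory.Limits AlgebraicGeometry Pool.Agent.Y116.UV
  Pool.Agent.Y101.Th Pool.Agent.Y691.TU Pool.Agent.Z125.UN Pool.Agent.H81.RZ
  Pool.Agent.H55.TH

namespace Pool.Agent.Results.MP_cd312e_ag.ThinSchubertCells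

universe v u

/-- The statement of Q1 for the cohomology of degree `w` of all smooth projective schemes over `ℚ`. -/
def QuestionIn {C : Type u} [Category.{v} C] (D : Graded ℚ C) {Ω W : Type} [Field Ω] [Algebra ℚ Ω]
    (R : LocalRealisation C Ω W) (deg : W → ℤ) (q : ℕ) (w : ℤ) : Prop :=
  ∀ X : Sch ℚ, SmProj X → MWAt R deg q w (D.H X w w)

/-- **The monodromy-weight conjecture and thin Schubert cells: `Gr(2, 2 + n)` and `Gr(3, 3 + n)`.** See
the explanations above; `hN` and `hρ` describe the realisation of the unit motive. -/
theorem result {C : Type u} [Category.{v} C] [Abelian C] {D : Graded ℚ C} {Ω W : Type} [Field Ω]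
    [Algebra ℚ Ω] {R : LocalRealisation C Ω W} [R.F.Additive] {deg : W → ℤ} {q : ℕ} (hq : 0 < q)
    (hC : Semisimple C) (hD : IsGraded D) :
    (IsLocalRealisation R D.L deg q → R.N.app D.one = 0 → (∀ g, (R.ρ g).app D.one = 𝟙 _) →
      ∀ w : ℤ, OnThinr 2 (PieceAt D (MWAt R deg q w) w)) ∧
    ∀ w : ℤ,
      (OnThin (PieceAt D (MWAt R deg q w) w) ↔ OnAll True (PieceAt D (MWAt R deg q w) w)) ∧
      (OnThin (PieceAt D (MWAt R deg q w) w) → QuestionIn D R deg q w) ∧
      (Devissage ℚ → QuestionIn D R deg q w → OnThin (PieceAt D (MWAt R deg q w) w)) := by
  have hQ : ∀ w, Fac (MWAt R deg q w) := fun w => {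
    zero := fun _ hA => mw_zero hA
    sum := fun _ _ hA hB => mw_sum hq hA hB
    summand := fun _ _ s r h hB => mw_summand s r h hB }
  refine ⟨fun hR hN hρ w => on_thin (clo_piece hC hD (hQ w) w)
    (Pool.Agent.H51.TH.spaces_cd hC hD hR hq (Pool.Agent.H51.TH.unit_cd hN hρ) w), fun w => ?_⟩
  have h0 := piece_iff Pool.Agent.Q193.LT.frac_rat hC hD (hQ w) w (r := 3) le_rfl
  have h1 := clo_thin Pool.Agent.Q193.LT.frac_rat (clo_piece hC hD (hQ w) w)
  exact ⟨h1.symm, fun h => h0.2.1 (h0.1.mpr (h1.mpr h)),
    fun hd h => h1.mp (h0.1.mp (h0.2.2 hd h))⟩

end Pool.Agent.Results.MP_cd312e_ag.ThinSchubertCells
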